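import Pool.Agent.Helper2.Zp.Main

/-!
# Wan's question on splitting fields of zeta numerators in `ℤ_p`-towers of curves

All definitions used in the statement are in `Pool.Agent.Helper2.Zp.Defs`.
-/

set_option autoImplicit false

open Filter ZpTower

/-- Let `k` be a finite field with `q` elements and let `X 0 ⊆ X 1 ⊆ ...` be a `ℤ_p`-tower of
function fields over `k` of smooth projective geometrically irreducible curves, with finite
ramification locus. Let `P n` be the numerator of the zeta function of `X n`,
`Z(X n, s) = ∏ (1 - s ^ deg x)⁻¹ = P n (s) / ((1 - s) (1 - q s))`. Then the degree over `ℚ` of the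
splitting field of `P n` tends to infinity with `n`. -/
theorem Pool.Agent.Results.MP_dfc37b_nt.SplittingFieldGrowth.result
    (p : ℕ) [Fact p.Prime] (k K Ω : Type*) [Field k] [Finite k] [Field K] [Field Ω]
    [Algebra k K] [Algebra k Ω] [Algebra K Ω] [IsScalarTower k K Ω]
    (X : ℕ → IntermediateField K Ω) (hX : IsZpTower p k K Ω X)
    (P : ℕ → Polynomial ℤ) (hP : ∀ n, IsZetaNumerator k (X n) (P n)) :
    Tendsto (fun n => Module.finrank ℚ ((P n).map (Int.castRingHom ℚ)).SplittingField)
      atTop atTop :=
  ZpTower.main hX P hP
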